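import Pool.Agent.J4H60.IF.Stm

set_option autoImplicit false

namespace Pool.Agent.J4H60.IF

open Finset

lemma U_card : U.card = 64 := by
  decide +kernel

lemma UG_card (G : Finset V) (h : ∀ X ∈ G, X.card = 3) (hG : G.card = 20) : (U ∪ G).card = 84 := by
  rw [Finset.card_union_of_disjoint, U_card, hG]
  rw [Finset.disjoint_left]
  intro X hX hX'
  have h1 := h X hX'
  unfold U at hX
  rw [mem_filter] at hX
  omega

theorem final (hP : S_P) (hL : S_L) (hW : S_W) (hM : S_M) (hT : S_T) (hI : S_I) (hJ : S_J)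
    (hX : S_X) (hY : S_Y) :
    ¬ (∀ n N : ℕ, 2 ^ (n - 1) < N → N ≤ 2 ^ n →
      ∃ A : Finset (Finset (Fin n)), A.card = N ∧
        ∀ s : ℕ, ∀ B : Finset (Finset (Fin n)), B.card = N →
          ((B.powersetCard s).filter
              (fun F => ∀ X ∈ F, ∀ Y ∈ F, X ≠ Y → ¬ Disjoint X Y)).card ≤
          ((A.powersetCard s).filter
              (fun F => ∀ X ∈ F, ∀ Y ∈ F, X ≠ Y → ¬ Disjoint X Y)).card) := by
  intro h
  obtain ⟨A, hA, hmax⟩ := h 7 84 (by norm_num) (by norm_num)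
  have hmax' : ∀ s : ℕ, ∀ B : Finset V, B.card = 84 → cnt B s ≤ cnt A s := hmax
  obtain ⟨B, hB, hDB⟩ := hY
  have h2 := hmax' 2 B hB
  have p1 := hP A
  have p2 := hP B
  rw [hA] at p1
  rw [hB] at p2
  have hDA : D A ≤ 60 := by omega
  have l := hL A
  have hs : ∑ X ∈ A, (8 - (X.card : ℤ)) ≤ 318 := by
    have : (D A : ℤ) ≤ 60 := by exact_mod_cast hDA
    linarith
  obtain ⟨w1, w2⟩ := hW A hA hs
  obtain ⟨m1, m2⟩ := hM A hA w1 w2 hDA
  have t := hT _ (fun X hX => (mem_filter.1 hX).2) m1 m2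
  have i := hI A w1 w2
  obtain ⟨G, g1, g2, g3⟩ := hX
  have j := hJ G g1
  have k := hmax' 64 (U ∪ G) (UG_card G g1 g2)
  omega

end Pool.Agent.J4H60.IF
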