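import Pool.Agent.J4H60.IF.Stm

set_option autoImplicit false
set_option maxRecDepth 4000

namespace Pool.Agent.J4H60.IF

open Finset

/-- the disjoint pairs with `|X| + |Y| ≥ 6` -/
def PP : Finset (V × V) :=
  univ.filter (fun p => Disjoint p.1 p.2 ∧ 6 ≤ p.1.card + p.2.card)

lemma fib (X : V) :
    (univ.filter (fun Y : V => Disjoint X Y ∧ 6 ≤ X.card + Y.card)).card = 8 - X.card := by
  have h1 : univ.filter (fun Y : V => Disjoint X Y ∧ 6 ≤ X.card + Y.card) =
      insert Xᶜ ((Xᶜ).image (fun y => Xᶜ.erase y)) := by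
    ext Y
    simp only [mem_filter, mem_univ, true_and, mem_insert, mem_image]
    have hc : (Xᶜ).card = 7 - X.card := by
      rw [Finset.card_compl, Fintype.card_fin]
    have hX7 : X.card ≤ 7 := by
      have := Finset.card_le_univ X
      rwa [Fintype.card_fin] at this
    constructor
    · rintro ⟨h2, h3⟩
      have h4 : Y ⊆ Xᶜ := by
        rw [Finset.subset_compl_iff_disjoint_left]
        exact h2
      have h5 := Finset.card_le_card h4
      by_cases h6 : Y = Xᶜ
      · exact Or.inl h6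
      · right
        have h7 : Y ⊂ Xᶜ := Finset.ssubset_iff_subset_ne.2 ⟨h4, h6⟩
        obtain ⟨y, hy, hyY⟩ := Finset.exists_of_ssubset h7
        refine ⟨y, hy, ?_⟩
        have h8 : Y ⊆ Xᶜ.erase y := by
          intro z hz
          rw [mem_erase]
          refine ⟨?_, h4 hz⟩
          rintro rfl
          exact hyY hz
        refine (Finset.eq_of_subset_of_card_le h8 ?_).symm
        rw [Finset.card_erase_of_mem hy]
        omega
    · rintro (h2 | ⟨y, hy, h2⟩)
      · rw [h2]
        refine ⟨disjoint_compl_right, ?_⟩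
        omega
      · rw [← h2]
        refine ⟨?_, ?_⟩
        · exact Disjoint.mono_right (Finset.erase_subset _ _) disjoint_compl_right
        · rw [Finset.card_erase_of_mem hy]
          omega
  rw [h1, Finset.card_insert_of_notMem, Finset.card_image_of_injOn]
  · rw [Finset.card_compl, Fintype.card_fin]
    have hX7 : X.card ≤ 7 := by
      have := Finset.card_le_univ X
      rwa [Fintype.card_fin] at this
    omega
  · intro y hy z hz hyz
    simp only at hyz
    by_contra hne
    have h2 : z ∈ Xᶜ.erase y := by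
      rw [mem_erase]
      exact ⟨fun h => hne h.symm, hz⟩
    rw [hyz] at h2
    exact (Finset.notMem_erase z _) h2
  · intro h2
    rw [mem_image] at h2
    obtain ⟨y, hy, h3⟩ := h2
    have h4 : y ∈ Xᶜ.erase y := by
      rw [h3]
      exact hy
    exact (Finset.notMem_erase y _) h4

lemma fst_sum (f : V → ℤ) : ∑ p ∈ PP, f p.1 = ∑ X : V, f X * (8 - X.card) := by
  unfold PP
  rw [Finset.sum_filter, Fintype.sum_prod_type]
  refine Finset.sum_congr rfl fun X _ => ?_
  simp only
  rw [← Finset.sum_filter, Finset.sum_const, fib, nsmul_eq_mul, mul_comm]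
  have hX7 : X.card ≤ 7 := by
    have := Finset.card_le_univ X
    rwa [Fintype.card_fin] at this
  push_cast [Nat.cast_sub (by omega : X.card ≤ 8)]
  ring

lemma snd_sum (f : V → ℤ) : ∑ p ∈ PP, f p.2 = ∑ p ∈ PP, f p.1 := by
  refine Finset.sum_nbij' (fun p => (p.2, p.1)) (fun p => (p.2, p.1)) ?_ ?_ ?_ ?_ ?_
  · intro p hp
    unfold PP at hp ⊢
    simp only [mem_filter, mem_univ, true_and] at hp ⊢
    exact ⟨hp.1.symm, by omega⟩
  · intro p hp
    unfold PP at hp ⊢
    simp only [mem_filter, mem_univ, true_and] at hp ⊢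
    exact ⟨hp.1.symm, by omega⟩
  · intro p _
    rfl
  · intro p _
    rfl
  · intro p _
    rfl

lemma tot : ∑ X : V, (8 - (X.card : ℤ)) = 576 := by
  decide +kernel

theorem t_L : S_L := by
  intro A
  have h1 : ((PP.filter (fun p => p.1 ∈ A ∧ p.2 ∈ A)).card : ℤ) ≤ D A := by
    have : PP.filter (fun p => p.1 ∈ A ∧ p.2 ∈ A) ⊆
        (A ×ˢ A).filter (fun p => p.1 ≠ p.2 ∧ Disjoint p.1 p.2) := by
      intro p hp
      unfold PP at hp
      simp only [mem_filter, mem_univ, true_and, mem_product] at hp ⊢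
      refine ⟨hp.2, ?_, hp.1.1⟩
      intro h
      have h2 := hp.1.1
      rw [h, disjoint_self] at h2
      have h3 := hp.1.2
      rw [h, h2] at h3
      simp at h3
    exact_mod_cast Finset.card_le_card this
  refine le_trans ?_ h1
  rw [Finset.card_filter]
  push_cast
  have h2 : ∑ X ∈ A, (8 - (X.card : ℤ)) = ∑ p ∈ PP, (if p.1 ∈ A then (1 : ℤ) else 0) := by
    rw [fst_sum (fun X => if X ∈ A then (1 : ℤ) else 0)]
    simp only [ite_mul, one_mul, zero_mul]
    rw [← Finset.sum_filter]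
    congr 1
    ext X
    simp
  have h3 : ∑ X ∈ A, (8 - (X.card : ℤ)) = ∑ p ∈ PP, (if p.2 ∈ A then (1 : ℤ) else 0) := by
    rw [snd_sum (fun X => if X ∈ A then (1 : ℤ) else 0)]
    exact h2
  have h4 : (576 : ℤ) = ∑ p ∈ PP, (1 : ℤ) := by
    rw [← tot]
    have := fst_sum (fun _ => 1)
    simp only [one_mul] at this
    rw [this]
  have h5 : 2 * ∑ X ∈ A, (8 - (X.card : ℤ)) - 576 =
      ∑ p ∈ PP, ((if p.1 ∈ A then (1 : ℤ) else 0) + (if p.2 ∈ A then (1 : ℤ) else 0) - 1) := by
    have e : ∑ p ∈ PP, ((if p.1 ∈ A then (1 : ℤ) else 0) + (if p.2 ∈ A then (1 : ℤ) else 0) - 1) =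
        ∑ p ∈ PP, (if p.1 ∈ A then (1 : ℤ) else 0) + ∑ p ∈ PP, (if p.2 ∈ A then (1 : ℤ) else 0) -
          ∑ p ∈ PP, (1 : ℤ) := by
      rw [← Finset.sum_add_distrib, ← Finset.sum_sub_distrib]
    rw [e, ← h2, ← h3, ← h4]
    ring
  rw [h5]
  refine Finset.sum_le_sum fun p _ => ?_
  by_cases h6 : p.1 ∈ A <;> by_cases h7 : p.2 ∈ A <;> simp [h6, h7]

end Pool.Agent.J4H60.IF
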