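import Mathlib

/-!
# Simultaneous maximisers of intersecting subfamily counts (MP_5f100a_co, frozen S09056): pieces

n = 7, N = 84. The family `U ∪ {triples avoiding 6}` has only 30 disjoint pairs (the least number),
every family with at most 30 disjoint pairs is `U ∪ G` with `G` 20 triples whose disjointness graph
is a perfect matching, so it has `3^10 = 59049` intersecting subfamilies of size 64; but
`U ∪ (star of 0) ∪ {123,124,125,126,134}` has 67072 of them.
-/

set_option autoImplicit false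

namespace Pool.Agent.J4H60.IF

open Finset

abbrev V := Finset (Fin 7)

/-- number of intersecting subfamilies of size `s` (word for word the frozen expression) -/
def cnt (A : Finset V) (s : ℕ) : ℕ :=
  ((A.powersetCard s).filter (fun F => ∀ X ∈ F, ∀ Y ∈ F, X ≠ Y → ¬ Disjoint X Y)).card

/-- number of all intersecting subfamilies -/
def ind (G : Finset V) : ℕ :=
  (G.powerset.filter (fun F => ∀ X ∈ F, ∀ Y ∈ F, X ≠ Y → ¬ Disjoint X Y)).card

/-- ordered disjoint pairs of distinct members -/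
def D (A : Finset V) : ℕ := ((A ×ˢ A).filter (fun p => p.1 ≠ p.2 ∧ Disjoint p.1 p.2)).card

/-- all sets of size at least 4 -/
def U : Finset V := univ.filter (fun X => 4 ≤ X.card)

/-- (P) pairs: each 2-subfamily is two ordered pairs. -/
def S_P : Prop := ∀ A : Finset V, 2 * cnt A 2 + D A = A.card * (A.card - 1)

/-- (L) lower bound: for the ordered pairs `(X, Y)` with `Y = Xᶜ` or `Y = Xᶜ \ {y}`, `y ∈ Xᶜ`
(these are the disjoint pairs with `|X| + |Y| ≥ 6`; there are `8 - |X|` of them for each `X`, 576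
in all) use `1[X ∈ A and Y ∈ A] ≥ 1[X ∈ A] + 1[Y ∈ A] - 1`. -/
def S_L : Prop := ∀ A : Finset V, 2 * ∑ X ∈ A, (8 - (X.card : ℤ)) - 576 ≤ (D A : ℤ)

/-- (W) weights: `∑_{X ∈ A} (|X| - 3) ≥ 102 = ∑_X max (|X| - 3) 0` forces this. -/
def S_W : Prop := ∀ A : Finset V, A.card = 84 → ∑ X ∈ A, (8 - (X.card : ℤ)) ≤ 318 →
  (∀ X ∈ A, 3 ≤ X.card) ∧ U ⊆ A

/-- (M) matching. `G` = the triples of `A` (20), `C` = the other triples (15). `D A ≥ 40 + D G`
(pairs `X, Xᶜ`), so `D G ≤ 20`; every triple is disjoint from 4 triples, so `D G = 20 + D C`, hence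
`D C = 0`, `D G = 20`. If all four triples disjoint from `X ∈ G` are in `C`, then all members of
`C` meet `Xᶜ` in at least two points, and of the 6 triples `ab x`, `cd x'` (`{a,b,c,d} = Xᶜ`,
`x, x' ∈ X`) at most 3 are in `C` (for each of the 3 partitions), so `|C| ≤ 4 + 9 < 15`. So each
`X ∈ G` is disjoint from at least one, hence exactly one, member of `G`. -/
def S_M : Prop := ∀ A : Finset V, A.card = 84 → (∀ X ∈ A, 3 ≤ X.card) → U ⊆ A → D A ≤ 60 →
  (A.filter (fun X => X.card = 3)).card = 20 ∧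
  ∀ X ∈ A.filter (fun X => X.card = 3), ∃! Y, Y ∈ A.filter (fun X => X.card = 3) ∧ Disjoint X Y

/-- (T) a perfect matching has `3^(n/2)` independent sets (induction: remove a pair). -/
def S_T : Prop := ∀ G : Finset V, (∀ X ∈ G, X.card = 3) → G.card = 20 →
  (∀ X ∈ G, ∃! Y, Y ∈ G ∧ Disjoint X Y) → ind G ≤ 3 ^ 10

/-- (I) `F ↦ F.filter (card = 3)` is injective on the intersecting 64-subfamilies of `A`: such an
`F` has exactly one of `X`, `Xᶜ` for each `X`. -/
def S_I : Prop := ∀ A : Finset V, (∀ X ∈ A, 3 ≤ X.card) → U ⊆ A →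
  cnt A 64 ≤ ind (A.filter (fun X => X.card = 3))

/-- (J) `H ↦ H ∪ {X ∈ U | Xᶜ ∉ H}` is an injection the other way. -/
def S_J : Prop := ∀ G : Finset V, (∀ X ∈ G, X.card = 3) → ind G ≤ cnt (U ∪ G) 64

/-- (X) the star of 0 and the triples 123, 124, 125, 126, 134: 67072 intersecting subfamilies
(`∑_{T ⊆ five} 2^(number of star members which meet all members of T)`; 59050 is enough:
`2^15 + 5 * 2^12 + 6 * 2^10 = 59392`). -/
def S_X : Prop := ∃ G : Finset V, (∀ X ∈ G, X.card = 3) ∧ G.card = 20 ∧ 59050 ≤ ind G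

/-- (Y) `U ∪ {triples avoiding 6}`: the ordered pairs are `(X, Xᶜ)`, `(Xᶜ, X)`, `(X, Xᶜ \ {6})`. -/
def S_Y : Prop := ∃ B : Finset V, B.card = 84 ∧ D B ≤ 60

end Pool.Agent.J4H60.IF
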