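import Pool.Agent.J4H60.IF.Stm

set_option autoImplicit false

namespace Pool.Agent.J4H60.IF

open Finset

lemma t_aux (m : ℕ) : ∀ G : Finset V, G.card = 2 * m → (∀ X ∈ G, X.card = 3) →
    (∀ X ∈ G, ∃! Y, Y ∈ G ∧ Disjoint X Y) → ind G ≤ 3 ^ m := by
  induction m with
  | zero =>
    intro G hG _ _
    have : G = ∅ := by
      rw [← Finset.card_eq_zero]
      omega
    rw [this]
    unfold ind
    refine (Finset.card_filter_le _ _).trans ?_
    simp
  | succ m ih =>
    intro G hG h3 hu
    obtain ⟨a, ha⟩ : G.Nonempty := by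
      rw [← Finset.card_pos]
      omega
    obtain ⟨b, ⟨hb, hab⟩, hbu⟩ := hu a ha
    have hne : a ≠ b := by
      rintro rfl
      rw [disjoint_self] at hab
      have := h3 a ha
      rw [hab] at this
      simp at this
    obtain ⟨a', _, hau⟩ := hu b hb
    have haa : a = a' := hau a ⟨ha, hab.symm⟩
    set G' := (G.erase a).erase b with hG'
    have hmem : ∀ X, X ∈ G' ↔ X ≠ b ∧ X ≠ a ∧ X ∈ G := by
      intro X
      rw [hG', mem_erase, mem_erase]
    have hcard : G'.card = 2 * m := by
      rw [hG', Finset.card_erase_of_mem (mem_erase.2 ⟨hne.symm, hb⟩), Finset.card_erase_of_mem ha]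
      omega
    have h3' : ∀ X ∈ G', X.card = 3 := fun X hX => h3 X ((hmem X).1 hX).2.2
    have hu' : ∀ X ∈ G', ∃! Y, Y ∈ G' ∧ Disjoint X Y := by
      intro X hX
      obtain ⟨hXb, hXa, hXG⟩ := (hmem X).1 hX
      obtain ⟨Y, ⟨hY, hXY⟩, hYu⟩ := hu X hXG
      refine ⟨Y, ⟨(hmem Y).2 ⟨?_, ?_, hY⟩, hXY⟩, ?_⟩
      · rintro rfl
        exact hXa ((hau X ⟨hXG, hXY.symm⟩).trans haa.symm)
      · rintro rfl
        exact hXb (hbu X ⟨hXG, hXY.symm⟩)
      · rintro Z ⟨hZ, hXZ⟩
        exact hYu Z ⟨((hmem Z).1 hZ).2.2, hXZ⟩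
    have hi := ih G' hcard h3' hu'
    set S := (G'.powerset.filter (fun F => ∀ X ∈ F, ∀ Y ∈ F, X ≠ Y → ¬ Disjoint X Y)) with hS
    have hsub : (G.powerset.filter (fun F => ∀ X ∈ F, ∀ Y ∈ F, X ≠ Y → ¬ Disjoint X Y)) ⊆
        S ∪ (S.image (insert a) ∪ S.image (insert b)) := by
      intro H hH
      rw [mem_filter, mem_powerset] at hH
      obtain ⟨hHG, hHi⟩ := hH
      have hH' : (H.erase a).erase b ∈ S := by
        rw [hS, mem_filter, mem_powerset]
        refine ⟨?_, ?_⟩
        · intro X hX
          rw [mem_erase, mem_erase] at hX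
          exact (hmem X).2 ⟨hX.1, hX.2.1, hHG hX.2.2⟩
        · intro X hX Y hY hXY
          rw [mem_erase, mem_erase] at hX hY
          exact hHi X hX.2.2 Y hY.2.2 hXY
      rw [mem_union, mem_union, mem_image, mem_image]
      by_cases h1 : a ∈ H
      · have h2 : b ∉ H := fun h2 => hHi a h1 b h2 hne hab
        right; left
        refine ⟨_, hH', ?_⟩
        rw [Finset.erase_eq_of_notMem (fun h => h2 (mem_of_mem_erase h)), Finset.insert_erase h1]
      · by_cases h2 : b ∈ H
        · right; right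
          refine ⟨_, hH', ?_⟩
          rw [Finset.erase_eq_of_notMem h1, Finset.insert_erase h2]
        · left
          rw [Finset.erase_eq_of_notMem h1, Finset.erase_eq_of_notMem h2] at hH'
          exact hH'
    have hc := (Finset.card_le_card hsub).trans (Finset.card_union_le _ _)
    have hc2 := Finset.card_union_le (S.image (insert a)) (S.image (insert b))
    have hc3 : (S.image (insert a)).card ≤ S.card := Finset.card_image_le
    have hc4 : (S.image (insert b)).card ≤ S.card := Finset.card_image_le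
    have hSi : S.card ≤ 3 ^ m := hi
    unfold ind
    rw [pow_succ]
    omega

theorem t_T : S_T := by
  intro G h3 hG hu
  exact t_aux 10 G (by omega) h3 hu

end Pool.Agent.J4H60.IF
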