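import Pool.Agent.J4H60.IF.Stm

set_option autoImplicit false

namespace Pool.Agent.J4H60.IF

open Finset

/-- positive part of `|X| - 3` -/
def gp (X : V) : ℤ := if 4 ≤ X.card then (X.card : ℤ) - 3 else 0

lemma gp_tot : ∑ X : V, gp X = 102 := by
  decide +kernel

lemma gp_nonneg (X : V) : 0 ≤ gp X := by
  unfold gp
  split_ifs with h
  · have : (4 : ℤ) ≤ X.card := by exact_mod_cast h
    linarith
  · exact le_rfl

lemma le_gp (X : V) : (X.card : ℤ) - 3 ≤ gp X := by
  unfold gp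
  split_ifs with h
  · exact le_rfl
  · have : (X.card : ℤ) < 4 := by exact_mod_cast (not_le.1 h)
    linarith

theorem t_W : S_W := by
  intro A hA hs
  have h1 : ∑ X ∈ A, (8 - (X.card : ℤ)) = 420 - ∑ X ∈ A, ((X.card : ℤ) - 3) := by
    have h2 : ∑ X ∈ A, (8 - (X.card : ℤ)) + ∑ X ∈ A, ((X.card : ℤ) - 3) = ∑ X ∈ A, (5 : ℤ) := by
      rw [← Finset.sum_add_distrib]
      refine Finset.sum_congr rfl fun X _ => ?_
      ring
    rw [Finset.sum_const, hA, show (84 : ℕ) • (5 : ℤ) = 420 by norm_num] at h2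
    linarith
  have h3 : ∑ X ∈ A, gp X ≤ 102 := by
    rw [← gp_tot]
    exact Finset.sum_le_sum_of_subset_of_nonneg (Finset.subset_univ _) (fun X _ _ => gp_nonneg X)
  have h4 : ∑ X ∈ A, ((X.card : ℤ) - 3) ≤ ∑ X ∈ A, gp X :=
    Finset.sum_le_sum fun X _ => le_gp X
  refine ⟨fun X hX => ?_, fun X hX => ?_⟩
  · by_contra hlt
    have h5 : ∑ X ∈ A, ((X.card : ℤ) - 3) < ∑ X ∈ A, gp X := by
      refine Finset.sum_lt_sum (fun X _ => le_gp X) ⟨X, hX, ?_⟩
      have h6 := gp_nonneg X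
      have h7 : (X.card : ℤ) < 3 := by exact_mod_cast (not_le.1 hlt)
      linarith
    linarith
  · by_contra hXA
    have h5 : ∑ X ∈ A, gp X < ∑ X : V, gp X := by
      refine Finset.sum_lt_sum_of_subset (Finset.subset_univ A) (Finset.mem_univ X) hXA ?_
        (fun Y _ _ => gp_nonneg Y)
      have h6 := (mem_filter.1 hX).2
      have h7 : (4 : ℤ) ≤ X.card := by exact_mod_cast h6
      have h8 := le_gp X
      linarith
    rw [gp_tot] at h5
    linarith

end Pool.Agent.J4H60.IF
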